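import Pool.Agent.H579U.Semi

set_option autoImplicit false

/-!
# Frankl's conjecture for the duals of the lattices of suborders

Let `X` be a finite set with a quasi-order `≤` and `L` the lattice of all quasi-orders (reflexive and
transitive relations) on `X` that are contained in `≤`, ordered by inclusion. If `≤` is a partial
order, `L` is the lattice of the suborders of the poset `X`, and its dual is (upper) semimodular,
because a covering pair of suborders differs in one pair. We prove the lattice form of Frankl's
conjecture for the dual of `L` and for `L`.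

Proof. `L`: if there are `a ≠ b` with `a ≤ b ≤ a`, the quasi-orders `R` with `(a, b) ∈ R` are mapped
injectively to quasi-orders without `(a, b)`: exchange `a` and `b` if `(b, a) ∉ R`, and make `b` an
isolated point if `(b, a) ∈ R`. Otherwise `≤` is a partial order and one removes a covering pair.
Dual of `L`: if `≤` is not symmetric, take `p < q` with `p` minimal and `q` maximal, let `U` be the
class of `p` and `V` the set of the elements below `q` and not in `U`; the pairs outside `U × V` form a
meet-irreducible quasi-order `m`, and one adds the pair `(p, q)` to the `R ⊆ m`. If `≤` is symmetric,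
take `U = {p}` and for `V` the rest of the class of `p`; an `R ⊆ m` is changed by putting `p` below the
points which are not below `p`, and into the class of a fixed `q ∈ V` if there are no such points.
-/

namespace Pool.Agent.Results.MP_e8229a_co.SuborderLattices

open Pool.Agent.H579U

universe u v

theorem result :
    -- the suborders of a finite poset: a semimodular lattice (the dual) and Frankl's conjecture
    (∀ (X : Type u) [PartialOrder X] [Finite X], IsUpperModularLattice (QOrd X)ᵒᵈ ∧
      (Nontrivial (QOrd X)ᵒᵈ → ∃ J : (QOrd X)ᵒᵈ, SupIrred J ∧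
        2 * Nat.card {U : (QOrd X)ᵒᵈ // J ≤ U} ≤ Nat.card (QOrd X)ᵒᵈ)) ∧
    -- all finite quasi-ordered sets
    (∀ (X : Type v) [Preorder X] [Finite X], (∃ a b : X, a ≠ b ∧ a ≤ b) →
      (∃ J : (QOrd X)ᵒᵈ, SupIrred J ∧
        2 * Nat.card {U : (QOrd X)ᵒᵈ // J ≤ U} ≤ Nat.card (QOrd X)ᵒᵈ) ∧
      ∃ J : QOrd X, SupIrred J ∧ 2 * Nat.card {U : QOrd X // J ≤ U} ≤ Nat.card (QOrd X)) := by
  constructor
  · intro X _ _
    refine ⟨inferInstance, fun hn => ?_⟩
    have h : ∃ a b : X, a ≠ b ∧ a ≤ b := by
      by_contra h
      push Not at h
      obtain ⟨R, S, hRS⟩ := hn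
      apply hRS
      have e : ∀ R : QOrd X, R = ⊥ := fun R => by
        rw [eq_bot_iff]
        intro x y hxy
        by_contra h1
        exact h x y h1 (R.le _ _ hxy)
      have e1 := e (OrderDual.ofDual R)
      have e2 := e (OrderDual.ofDual S)
      exact OrderDual.ofDual.injective (e1.trans e2.symm)
    obtain ⟨m, h1, h2⟩ := exists_meet h
    exact ⟨OrderDual.toDual m, h1.dual, h2⟩
  · intro X _ _ h
    constructor
    · obtain ⟨m, h1, h2⟩ := exists_meet h
      exact ⟨OrderDual.toDual m, h1.dual, h2⟩
    · obtain ⟨a, b, h1, h2, h3⟩ := exists_pair h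
      refine ⟨pair a b h2, pair_irred h2 h1, ?_⟩
      simpa only [pair_le] using h3

end Pool.Agent.Results.MP_e8229a_co.SuborderLattices
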